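import Pool.Agent.ZES.StmtsG

/-!
# Row GEN of squad ZES: a finite system of generators
-/

namespace Pool.Agent.ZES.H45

open Pool.Agent.ZES

/-- Row GEN. -/
theorem gen : GenStmt := by
  intro V A B hA
  obtain ⟨s, f, hf⟩ := (Submodule.fg_iff_exists_fin_generating_family).1
    ((Module.Finite.iff_fg).1 hA)
  have hfA : ∀ i, f i ∈ A := fun i => hf ▸ Submodule.subset_span (Set.mem_range_self i)
  have hgen : ∀ h ∈ A, ∃ c : Fin s → ℂ, h = fun x => ∑ i, c i * f i x := by
    intro h hh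
    rw [← hf] at hh
    obtain ⟨c, hc⟩ := (Submodule.mem_span_range_iff_exists_fun ℂ).1 hh
    refine ⟨c, ?_⟩
    funext x
    rw [← hc]
    simp
  refine ⟨s, f, hfA, hgen, ?_⟩
  intro h hh
  refine Submodule.mul_induction_on hh ?_ ?_
  · intro a ha b hb
    obtain ⟨c, rfl⟩ := hgen a ha
    refine ⟨fun i => c i • b, fun i => B.smul_mem _ hb, ?_⟩
    funext x
    simp only [Pi.mul_apply, Pi.smul_apply, smul_eq_mul, Finset.sum_mul]
    exact Finset.sum_congr rfl fun i _ => by ring
  · rintro a b ⟨c, hc, rfl⟩ ⟨d, hd, rfl⟩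
    refine ⟨fun i => c i + d i, fun i => B.add_mem (hc i) (hd i), ?_⟩
    funext x
    simp only [Pi.add_apply, mul_add, Finset.sum_add_distrib]

end Pool.Agent.ZES.H45
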